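import Pool.Agent.T9h69.Leonard8

/-!
# All Leonard triples which extend the Krawtchouk Leonard pair of `sl₂` (question Q1)

`kA K d` and `kS K d` are the matrices `A` and `A*` of the problem.  The theorem lists all
matrices `E` for which `(A, A*, E)` is a Leonard triple on `K ^ (d + 1)`.
-/

namespace Pool.Agent.Results.MP_f4f39d_al.Classification

open Matrix Pool.Agent.T9h69.Leonard

/-- Let `K` be an algebraically closed field of characteristic zero and `d ≥ 0`.  Then
`(A, A*, E)` is a Leonard triple if and only if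
* `d = 0`, or
* `E = a + b A + c A* + e [A, A*]` with `b² ≠ 4 e²`, `c² ≠ 4 e²` and `b² + c² ≠ 4 e²`, or
* `d = 2` and `E = a + b A A* + c A* A` with `b ≠ 0` and `c ≠ 0`. -/
theorem result {K : Type*} [Field K] [IsAlgClosed K] [CharZero K] (d : ℕ)
    (E : Matrix (Fin (d + 1)) (Fin (d + 1)) K) :
    IsLeonardTriple (toLin' (kA K d)) (toLin' (kS K d)) (toLin' E) ↔
      d = 0 ∨
      (∃ a b c e : K,
        E = a • 1 + b • kA K d + c • kS K d + e • (kA K d * kS K d - kS K d * kA K d) ∧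
        b ^ 2 ≠ 4 * e ^ 2 ∧ c ^ 2 ≠ 4 * e ^ 2 ∧ b ^ 2 + c ^ 2 ≠ 4 * e ^ 2) ∨
      (d = 2 ∧ ∃ a b c : K,
        E = a • 1 + b • (kA K d * kS K d) + c • (kS K d * kA K d) ∧ b ≠ 0 ∧ c ≠ 0) :=
  classification E

end Pool.Agent.Results.MP_f4f39d_al.Classification
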