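import Pool.Agent.T9h69.Leonard8

/-!
# The commutators of a Leonard triple which extends the Krawtchouk pair (question Q2)

`kA K d` and `kS K d` are the matrices `A` and `A*` of the problem.
-/

namespace Pool.Agent.Results.MP_f4f39d_al.Commutators

open Matrix Pool.Agent.T9h69.Leonard

variable {K : Type*} [Field K] {d : ℕ}

/-- `(A, A*, E)` is a Leonard triple on `K ^ (d + 1)`. -/
def IsExtension (E : Matrix (Fin (d + 1)) (Fin (d + 1)) K) : Prop :=
  IsLeonardTriple (toLin' (kA K d)) (toLin' (kS K d)) (toLin' E)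

/-- The commutator `[A, A*] = A A* - A* A`. -/
def kC (K : Type*) [Field K] (d : ℕ) : Matrix (Fin (d + 1)) (Fin (d + 1)) K :=
  kA K d * kS K d - kS K d * kA K d

/-- Let `K` be an algebraically closed field of characteristic zero and `d ≥ 1`.  Then Q2 has a
negative answer: `(A, A*, A + A*)` is a Leonard triple and `[A, A*]` is not in the span of
`1, A, A*, A + A*`.  More precisely, for a Leonard triple `(A, A*, E)` the three commutators
lie in the span of `1, A, A*, E` if and only if `E = a + b A + c A* + e [A, A*]` with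
`e ≠ 0`. -/
theorem result {K : Type*} [Field K] [IsAlgClosed K] [CharZero K] (d : ℕ) (hd : 1 ≤ d) :
    (IsExtension (kA K d + kS K d) ∧ kC K d ∉ span4 (kA K d) (kS K d) (kA K d + kS K d)) ∧
    ∀ E : Matrix (Fin (d + 1)) (Fin (d + 1)) K, IsExtension E →
      (CommInSpan (kA K d) (kS K d) E ↔
        ∃ a b c e : K, e ≠ 0 ∧ E = a • 1 + b • kA K d + c • kS K d + e • kC K d) :=
  ⟨⟨sum_triple, sum_not_mem hd⟩, fun E hE => commutators hd E hE⟩

end Pool.Agent.Results.MP_f4f39d_al.Commutators
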